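import Pool.Agent.H16Z.Lech.Link

set_option autoImplicit false

/-- The Stirling refinement of Lech's inequality, with the sum running over all `i = 0, …, d`:
for general linear forms the multiplicities `e i` of `I` in `R / (l_1, …, l_i)` exist as limits and
`∑ s(d+1, d+1-i) e i ≤ (d+1)! length (R / I)`. -/
theorem Pool.Agent.Results.MP_eae75b_ag.AFullSum.result
    (k : Type) [Field k] [Infinite k] (d : ℕ) (I : Ideal (MvPowerSeries (Fin (d + 1)) k))
    (hI : I.radical =
      Ideal.span (Set.range (MvPowerSeries.X : Fin (d + 1) → MvPowerSeries (Fin (d + 1)) k))) :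
    ∃ P : MvPolynomial (Fin d × Fin (d + 1)) k, P ≠ 0 ∧ ∀ c : Fin d → Fin (d + 1) → k,
      MvPolynomial.eval (fun p => c p.1 p.2) P ≠ 0 → ∃ e : Fin (d + 1) → ℝ,
        (∀ i : Fin (d + 1), Filter.Tendsto (fun n : ℕ => ((d + 1 - i.val).factorial : ℝ) *
          ((Module.length (MvPowerSeries (Fin (d + 1)) k)
            (MvPowerSeries (Fin (d + 1)) k ⧸ (I ^ n ⊔
              Ideal.span {f : MvPowerSeries (Fin (d + 1)) k | ∃ j : Fin d, j.val < i.val ∧
                f = ∑ t : Fin (d + 1),
                  c j t • (MvPowerSeries.X t : MvPowerSeries (Fin (d + 1)) k)}))).toNat : ℝ) /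
              (n : ℝ) ^ (d + 1 - i.val)) Filter.atTop (nhds (e i))) ∧
        ∑ i : Fin (d + 1), ((ascPochhammer ℕ (d + 1)).coeff (d + 1 - i.val) : ℝ) * e i ≤
          ((d + 1).factorial : ℝ) * ((Module.length (MvPowerSeries (Fin (d + 1)) k)
            (MvPowerSeries (Fin (d + 1)) k ⧸ I)).toNat : ℝ) :=
  Pool.Agent.H16Z.Lech.final d I hI
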